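import Pool.Agent.Q141.Tile.Main

/-!
# MP_9dc182_co: an equiconstructible side length is divisible by `a b`

Full positive answer to Q1 (and Q2). Let `a, b, c` be positive integers with `gcd (a, b) = 1` and
`c² = a² + b² + a b`. If an equilateral triangle of side `X` is cut into triangles with side
lengths `a, b, c`, then `X = m a b` for a positive integer `m`. No squarefreeness is assumed.

Proof. Let `α, β` be the angles of the tile opposite to `a, b`; `α + β = π / 3` and `α / π` is
irrational (Niven). Let `x = (b - a) / c`. There is a function `φ` on directions with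
`φ (-z) = -φ z`, `φ (exp (i α) z) = x φ z`, `φ (exp (i π / 3) z) = -φ z`, `φ = 1` on the first side
of the big triangle. Summing `length * φ (direction)` over all sides of all tiles, interior
segments cancel, so the sum is `3 X`. A tile of one orientation contributes `φ (..)` times
`c - (b - a) x = 3 a b / c`, a tile of the other orientation contributes
`c + (a - b) / x = 0`. Hence `X c = a b W` with `W` a sum of terms `± x ^ k`, so
`X c (c (b - a)) ^ n` is an integer multiple of `a b`. Since `X` is an integer (a side is a sum of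
tile sides) and `a b` is coprime to `c (b - a)`, it follows that `a b` divides `X`.
-/

namespace Pool.Agent.Results.MP_9dc182_co.DivisibleByAB

/-- The Euclidean plane. -/
abbrev Plane : Type := EuclideanSpace ℝ (Fin 2)

/-- The closed triangle with the vertices `v 0`, `v 1`, `v 2`. -/
def Tri (v : Fin 3 → Plane) : Set Plane := convexHull ℝ (Set.range v)

/-- `v` is the vertex triple of a triangle with side lengths `a`, `b`, `c`, in some order. -/
def HasSides (v : Fin 3 → Plane) (a b c : ℝ) : Prop :=
  ∃ σ : Equiv.Perm (Fin 3), dist (v (σ 1)) (v (σ 2)) = a ∧ dist (v (σ 2)) (v (σ 0)) = b ∧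
    dist (v (σ 0)) (v (σ 1)) = c

/-- `X > 0` is equiconstructible by `(a, b, c)`: an equilateral triangle of side `X` is the union
of finitely many triangles with side lengths `a`, `b`, `c` whose interiors are pairwise disjoint. -/
def Equiconstructible (a b c : ℝ) (X : ℝ) : Prop :=
  0 < X ∧ ∃ (N : ℕ) (T : Fin 3 → Plane) (P : Fin N → Fin 3 → Plane), HasSides T X X X ∧
    (∀ i, HasSides (P i) a b c) ∧ (⋃ i, Tri (P i)) = Tri T ∧
    ∀ i j, i ≠ j → Disjoint (interior (Tri (P i))) (interior (Tri (P j)))

theorem result :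
    (∀ a b c : ℕ, 0 < a → 0 < b → 0 < c → Nat.gcd a b = 1 → c ^ 2 = a ^ 2 + b ^ 2 + a * b →
      ∀ X : ℝ, Equiconstructible a b c X → ∃ m : ℕ, 0 < m ∧ X = m * (a * b)) ∧
    (∀ X : ℝ, Equiconstructible 5 16 19 X → ∃ m : ℕ, 0 < m ∧ X = m * 16) := by
  have key : ∀ a b c : ℕ, 0 < a → 0 < b → 0 < c → Nat.gcd a b = 1 →
      c ^ 2 = a ^ 2 + b ^ 2 + a * b →
      ∀ X : ℝ, Equiconstructible a b c X → ∃ m : ℕ, 0 < m ∧ X = m * (a * b) := by
    rintro a b c ha hb - hg heq X ⟨hX, N, h⟩
    obtain ⟨m, h1, h2, -⟩ := Pool.Agent.Q141.Tile.main_div a b c ha hb hg heq X hX N h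
    exact ⟨m, h1, h2⟩
  refine ⟨key, ?_⟩
  intro X h
  obtain ⟨m, h1, h2⟩ := key 5 16 19 (by norm_num) (by norm_num) (by norm_num) (by norm_num)
    (by norm_num) X (by exact_mod_cast h)
  refine ⟨5 * m, by omega, ?_⟩
  rw [h2]
  push_cast
  ring

end Pool.Agent.Results.MP_9dc182_co.DivisibleByAB
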